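import Pool.Agent.H92.NR.W3H

namespace Pool.NR

namespace C3N

theorem core {p : ℕ} [Fact p.Prime] (s a b a' b' c0 lam : ZMod p) (hs0 : s ≠ 0) (hc00 : c0 ≠ 0)
    (hani : ∀ x y : ZMod p, x ^ 2 - s * y ^ 2 = 0 → x = 0 ∧ y = 0)
    (hN2 : b' ^ 2 - s * a' ^ 2 = b ^ 2 - s * a ^ 2) :
    Eq3a (T22 1 0 0 (-s) (lam + c0 * a) (c0 * (b + 1)) (c0 * (b - 1)) (- (lam * s) + c0 * (s * a)))
      (T22 1 0 0 (-s) a' (b' + 1) (b' - 1) (s * a')) := by
  by_cases hz : s * (a + a') = 0 ∧ b' - b = 0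
  · obtain ⟨hz1, hz2⟩ := hz
    have ha' : a' = - a := by
      have := (mul_eq_zero.1 hz1).resolve_left hs0
      linear_combination this
    have hb' : b' = b := by linear_combination hz2
    subst ha' hb'
    apply W3H.eq_mk (x := 1) (y := 0) (z := 0) (w := -1) (h00 := 1) (h01 := 0) (h10 := lam) (h11 := - c0)
    · simp
    · simpa using hc00
    · ring
    · ring
    · ring
    · ring
    · ring
    · ring
    · ring
    · ring
  · have hN0 : (s * (a + a')) ^ 2 - s * (b' - b) ^ 2 ≠ 0 := fun h => hz (hani _ _ h)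
    apply W3H.eq_mk (x := s * (a + a')) (y := s * (b' - b)) (z := b' - b) (w := s * (a + a'))
      (h00 := (s * (a + a')) ^ 2 - s * (b' - b) ^ 2) (h01 := 0)
      (h10 := lam * ((s * (a + a')) ^ 2 - s * (b' - b) ^ 2))
      (h11 := c0 * ((s * (a + a')) ^ 2 - s * (b' - b) ^ 2))
    · intro h; apply hN0; linear_combination h
    · intro h
      apply mul_ne_zero (mul_ne_zero hN0 hN0) hc00
      linear_combination h
    · ring
    · ring
    · ring
    · ring
    · linear_combination - c0 * (s * (a + a')) * hN2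
    · linear_combination - c0 * s * (b' - b) * hN2
    · linear_combination - c0 * s * (b' - b) * hN2
    · linear_combination - c0 * s * (s * (a + a')) * hN2

end C3N

theorem c3n (hk : KR2Stmt) (hn : NREStmt) : C3NStmt := by
  intro p hp s A C D E hCD hp2 hs hs1
  have h2 := W3H.two_ne hp2
  have hsns : ¬ IsSquare s := by
    obtain ⟨s0, h0, h01, h0n, h0u, -⟩ := (hk p).1 hp2
    rcases h0u s hs with h | h
    · exact absurd h hs1
    · rw [h]; exact h0n
  have hs0 : s ≠ 0 := hs.1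
  -- anisotropy
  have hani : ∀ x y : ZMod p, x ^ 2 - s * y ^ 2 = 0 → x = 0 ∧ y = 0 := by
    intro x y h
    have hy : y = 0 := by
      by_contra hy
      apply hsns
      refine ⟨x / y, ?_⟩
      field_simp
      linear_combination - h
    refine ⟨?_, hy⟩
    rw [hy] at h
    have : x ^ 2 = 0 := by linear_combination h
    exact pow_eq_zero_iff two_ne_zero |>.1 this
  obtain ⟨c0, hc0⟩ : ∃ c0 : ZMod p, c0 = (C - D) / 2 := ⟨_, rfl⟩
  have hc00 : c0 ≠ 0 := by
    rw [hc0]; exact div_ne_zero (sub_ne_zero.2 hCD) h2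
  obtain ⟨lam, hlam⟩ : ∃ lam : ZMod p, lam = (s * A - E) / (2 * s) := ⟨_, rfl⟩
  obtain ⟨a, ha⟩ : ∃ a : ZMod p, a = (A - lam) / c0 := ⟨_, rfl⟩
  obtain ⟨b, hb⟩ : ∃ b : ZMod p, b = (C + D) / 2 / c0 := ⟨_, rfl⟩
  have eA : A = lam + c0 * a := by rw [ha]; field_simp; ring
  have e2c : 2 * c0 = C - D := by rw [hc0]; field_simp
  have e2b : 2 * (c0 * b) = C + D := by rw [hb]; field_simp
  have eC : C = c0 * (b + 1) := by
    apply mul_left_cancel₀ h2
    linear_combination - e2c - e2b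
  have eD : D = c0 * (b - 1) := by
    apply mul_left_cancel₀ h2
    linear_combination e2c - e2b
  have eE : E = - (lam * s) + c0 * (s * a) := by
    have h3 : lam * (2 * s) = s * A - E := by rw [hlam]; field_simp
    linear_combination s * eA + h3
  obtain ⟨a', b', hN, hN2⟩ := hn p s a b
  refine ⟨_, NF3aN.n1 s a' b' hp2 hs hs1 hN, ?_⟩
  rw [eC, eD, eE, eA]
  exact C3N.core s a b a' b' c0 lam hs0 hc00 hani hN2

end Pool.NR
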