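import Pool.Agent.H7.NR.Com

set_option linter.unusedVariables false
set_option linter.unusedSimpArgs false
set_option linter.unusedSectionVars false

namespace Pool.NR

universe u

namespace S4B

open H7Com

variable {p : ℕ} [Fact p.Prime] {R : Type u} [NonUnitalRing R]

theorem up (b c d e : ZMod p) : TabUp (tab4b b c d e) := by
  intro i j hij
  fin_cases i <;> fin_cases j <;> first | rfl | (exact absurd hij (by decide))

structure Rel (b c d e : ZMod p) (g : Fin 4 → R) : Prop where
  p0 : (p : ℤ) • g 0 = (d.val : ℤ) • g 3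
  p1 : (p : ℤ) • g 1 = (e.val : ℤ) • g 3
  p2 : (p : ℤ) • g 2 = 0
  p3 : (p : ℤ) • g 3 = 0
  m00 : g 0 * g 0 = g 2
  m01 : g 0 * g 1 = 0
  m02 : g 0 * g 2 = g 3
  m03 : g 0 * g 3 = 0
  m10 : g 1 * g 0 = (b.val : ℤ) • g 3
  m11 : g 1 * g 1 = (c.val : ℤ) • g 3
  m12 : g 1 * g 2 = 0
  m13 : g 1 * g 3 = 0
  m20 : g 2 * g 0 = g 3
  m21 : g 2 * g 1 = 0
  m22 : g 2 * g 2 = 0
  m23 : g 2 * g 3 = 0
  m30 : g 3 * g 0 = 0
  m31 : g 3 * g 1 = 0
  m32 : g 3 * g 2 = 0
  m33 : g 3 * g 3 = 0

theorem rel {b c d e : ZMod p} {g : Fin 4 → R}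
    (hP : ∀ i, p • g i = ∑ j, (tab4b b c d e).P i j • g j)
    (hM : ∀ i j, g i * g j = ∑ k, (tab4b b c d e).M i j k • g k) : Rel b c d e g where
  p0 := by
    rw [natCast_zsmul, natCast_zsmul]
    simpa [tab4b, Fin.sum_univ_four] using hP 0
  p1 := by
    rw [natCast_zsmul, natCast_zsmul]
    simpa [tab4b, Fin.sum_univ_four] using hP 1
  p2 := by rw [natCast_zsmul]; simpa [tab4b, Fin.sum_univ_four] using hP 2
  p3 := by rw [natCast_zsmul]; simpa [tab4b, Fin.sum_univ_four] using hP 3
  m00 := by simpa [tab4b, Fin.sum_univ_four] using hM 0 0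
  m01 := by simpa [tab4b, Fin.sum_univ_four] using hM 0 1
  m02 := by simpa [tab4b, Fin.sum_univ_four] using hM 0 2
  m03 := by simpa [tab4b, Fin.sum_univ_four] using hM 0 3
  m10 := by rw [natCast_zsmul]; simpa [tab4b, Fin.sum_univ_four] using hM 1 0
  m11 := by rw [natCast_zsmul]; simpa [tab4b, Fin.sum_univ_four] using hM 1 1
  m12 := by simpa [tab4b, Fin.sum_univ_four] using hM 1 2
  m13 := by simpa [tab4b, Fin.sum_univ_four] using hM 1 3
  m20 := by simpa [tab4b, Fin.sum_univ_four] using hM 2 0
  m21 := by simpa [tab4b, Fin.sum_univ_four] using hM 2 1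
  m22 := by simpa [tab4b, Fin.sum_univ_four] using hM 2 2
  m23 := by simpa [tab4b, Fin.sum_univ_four] using hM 2 3
  m30 := by simpa [tab4b, Fin.sum_univ_four] using hM 3 0
  m31 := by simpa [tab4b, Fin.sum_univ_four] using hM 3 1
  m32 := by simpa [tab4b, Fin.sum_univ_four] using hM 3 2
  m33 := by simpa [tab4b, Fin.sum_univ_four] using hM 3 3

theorem cast_eq_iff {a b : ℤ} : (a : ZMod p) = b ↔ ∃ c : ℤ, a - b = p * c := by
  rw [← sub_eq_zero, ← Int.cast_sub, ZMod.intCast_zmod_eq_zero_iff_dvd]
  rfl

theorem cast_zero_iff {a : ℤ} : (a : ZMod p) = 0 ↔ ∃ c : ℤ, a = p * c := by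
  rw [ZMod.intCast_zmod_eq_zero_iff_dvd]
  rfl

/-- the equations between the parameters -/
theorem eqs (hb : BASStmt.{u}) {b c d e b' c' d' e' : ZMod p} (hc : Nat.card R = p ^ 4)
    (h : HasTab p R (tab4b b c d e)) (h' : HasTab p R (tab4b b' c' d' e')) :
    ∃ u v k : ZMod p, u ≠ 0 ∧ v ≠ 0 ∧ v * b = b' * u ^ 2 ∧ v ^ 2 * c = c' * u ^ 3 ∧
      u * d + k * e = d' * u ^ 3 ∧ v * e = e' * u ^ 3 := by
  obtain ⟨g, hg, hP, hM⟩ := h
  obtain ⟨k, hk, hP', hM'⟩ := h'
  have H := rel hP hM
  have H' := rel hP' hM'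
  obtain ⟨U, K, l, q, hx⟩ := rep hg (k 0)
  obtain ⟨S, V, T, r, hy⟩ := rep hg (k 1)
  have h2 : k 2 = (U * U) • g 2 + (U * K * b.val + K * K * c.val + 2 * U * l) • g 3 := by
    rw [← H'.m00, hx]
    simp only [mul_add, add_mul, smul_mul_assoc, mul_smul_comm, H.m00, H.m01, H.m02, H.m03, H.m10,
      H.m11, H.m12, H.m13, H.m20, H.m21, H.m22, H.m23, H.m30, H.m31, H.m32, H.m33]
    module
  have h3 : k 3 = (U * U * U) • g 3 := by
    rw [← H'.m02, hx, h2]
    simp only [mul_add, add_mul, smul_mul_assoc, mul_smul_comm, H.m00, H.m01, H.m02, H.m03, H.m10,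
      H.m11, H.m12, H.m13, H.m20, H.m21, H.m22, H.m23, H.m30, H.m31, H.m32, H.m33]
    module
  have hU : (U : ZMod p) ≠ 0 := by
    intro h0
    have : k 3 = 0 := by
      rw [h3, ← zero_smul ℤ (g 3)]
      exact zs_eq H.p3 (by push_cast; rw [h0]; ring)
    have h1 : (1 : ℤ) • k 3 = 0 := by rw [this, smul_zero]
    have := lead3 hb hc (up b' c' d' e') hk hP' h1
    simp at this
  have P23 : ((tab4b b c d e).P 2 3 : ℤ) = 0 := rfl
  -- x' y' = 0
  have e01 : (U * S) • g 2 + (U * T + K * S * b.val + K * V * c.val + l * S) • g 3 = 0 := by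
    rw [← H'.m01, hx, hy]
    simp only [mul_add, add_mul, smul_mul_assoc, mul_smul_comm, H.m00, H.m01, H.m02, H.m03, H.m10,
      H.m11, H.m12, H.m13, H.m20, H.m21, H.m22, H.m23, H.m30, H.m31, H.m32, H.m33]
    module
  obtain ⟨c2, c3, f1, f2⟩ := lead2 hb hc (up b c d e) hg hP e01
  rw [P23] at f2
  have hS : (S : ZMod p) = 0 := by
    have : ((U * S : ℤ) : ZMod p) = 0 := cast_zero_iff.2 ⟨c2, f1⟩
    push_cast at this
    exact (mul_eq_zero.1 this).resolve_left hU
  have hT : (U : ZMod p) * T + K * V * c = 0 := by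
    have : ((U * T + K * S * b.val + K * V * c.val + l * S : ℤ) : ZMod p) = 0 :=
      cast_zero_iff.2 ⟨c3, by rw [f2]; ring⟩
    push_cast at this
    rw [ZMod.natCast_zmod_val, ZMod.natCast_zmod_val, hS] at this
    linear_combination this
  -- y' x' = b' z'
  have e10 : (S * U) • g 2 + (V * U * b.val + S * l + V * K * c.val + T * U -
      b'.val * (U * U * U)) • g 3 = 0 := by
    have := H'.m10
    rw [hx, hy, h3] at this
    rw [← sub_eq_zero] at this
    rw [← this]
    simp only [mul_add, add_mul, smul_mul_assoc, mul_smul_comm, H.m00, H.m01, H.m02, H.m03, H.m10,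
      H.m11, H.m12, H.m13, H.m20, H.m21, H.m22, H.m23, H.m30, H.m31, H.m32, H.m33]
    module
  obtain ⟨c2', c3', f1', f2'⟩ := lead2 hb hc (up b c d e) hg hP e10
  rw [P23] at f2'
  have g10 : (V : ZMod p) * b = b' * U ^ 2 := by
    have : ((V * U * b.val + S * l + V * K * c.val + T * U -
      b'.val * (U * U * U) : ℤ) : ZMod p) = 0 := cast_zero_iff.2 ⟨c3', by rw [f2']; ring⟩
    push_cast at this
    rw [ZMod.natCast_zmod_val, ZMod.natCast_zmod_val, ZMod.natCast_zmod_val, hS] at this
    apply mul_left_cancel₀ hU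
    linear_combination this - hT
  -- y' y' = c' z'
  have e11 : (S * S) • g 2 + (V * S * b.val + V * V * c.val + 2 * S * T -
      c'.val * (U * U * U)) • g 3 = 0 := by
    have := H'.m11
    rw [hy, h3] at this
    rw [← sub_eq_zero] at this
    rw [← this]
    simp only [mul_add, add_mul, smul_mul_assoc, mul_smul_comm, H.m00, H.m01, H.m02, H.m03, H.m10,
      H.m11, H.m12, H.m13, H.m20, H.m21, H.m22, H.m23, H.m30, H.m31, H.m32, H.m33]
    module
  obtain ⟨c2'', c3'', f1'', f2''⟩ := lead2 hb hc (up b c d e) hg hP e11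
  rw [P23] at f2''
  have g11 : (V : ZMod p) ^ 2 * c = c' * U ^ 3 := by
    have : ((V * S * b.val + V * V * c.val + 2 * S * T -
      c'.val * (U * U * U) : ℤ) : ZMod p) = 0 := cast_zero_iff.2 ⟨c3'', by rw [f2'']; ring⟩
    push_cast at this
    rw [ZMod.natCast_zmod_val, ZMod.natCast_zmod_val, ZMod.natCast_zmod_val, hS] at this
    linear_combination this
  -- p x' = d' z'
  have e0 : (U * d.val + K * e.val : ℤ) • g 3 = (d'.val * (U * U * U) : ℤ) • g 3 := by
    have := H'.p0
    rw [hx, h3, smul_add, smul_add, smul_add, smul_comm (p : ℤ) U, smul_comm (p : ℤ) K,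
      smul_comm (p : ℤ) l, smul_comm (p : ℤ) q, H.p0, H.p1, H.p2, H.p3] at this
    rw [← sub_eq_zero] at this ⊢
    rw [← this]
    module
  have g0 : (U : ZMod p) * d + K * e = d' * U ^ 3 := by
    have := eq3 hb hc (up b c d e) hg hP e0
    push_cast at this
    rw [ZMod.natCast_zmod_val, ZMod.natCast_zmod_val, ZMod.natCast_zmod_val] at this
    linear_combination this
  have e1 : (S * d.val + V * e.val : ℤ) • g 3 = (e'.val * (U * U * U) : ℤ) • g 3 := by
    have := H'.p1
    rw [hy, h3, smul_add, smul_add, smul_add, smul_comm (p : ℤ) S, smul_comm (p : ℤ) V,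
      smul_comm (p : ℤ) T, smul_comm (p : ℤ) r, H.p0, H.p1, H.p2, H.p3] at this
    rw [← sub_eq_zero] at this ⊢
    rw [← this]
    module
  have g1 : (V : ZMod p) * e = e' * U ^ 3 := by
    have := eq3 hb hc (up b c d e) hg hP e1
    push_cast at this
    rw [ZMod.natCast_zmod_val, ZMod.natCast_zmod_val, ZMod.natCast_zmod_val, hS] at this
    linear_combination this
  -- V is a unit
  have hV : (V : ZMod p) ≠ 0 := by
    obtain ⟨A, B, C, D, hz⟩ := rep hk (g 1)
    have e4 : (A * U + B * S) • g 0 + (A * K + B * V - 1) • g 1 +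
        (A * l + B * T + C * (U * U)) • g 2 +
        (A * q + B * r + C * (U * K * b.val + K * K * c.val + 2 * U * l) + D * (U * U * U)) • g 3 =
        0 := by
      have : A • k 0 + B • k 1 + C • k 2 + D • k 3 - g 1 = 0 := by rw [← hz, sub_self]
      rw [← this, hx, hy, h2, h3]
      module
    obtain ⟨c0, c1, _, _, f0, f1, _, _⟩ := bas hb hc (up b c d e) hg hP e4
    have P01 : ((tab4b b c d e).P 0 1 : ℤ) = 0 := rfl
    rw [P01] at f1
    have hA : (A : ZMod p) = 0 := by
      have : ((A * U + B * S : ℤ) : ZMod p) = 0 := cast_zero_iff.2 ⟨c0, f0⟩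
      push_cast at this
      rw [hS, mul_zero, add_zero] at this
      exact (mul_eq_zero.1 this).resolve_right hU
    intro hV
    have : ((A * K + B * V - 1 : ℤ) : ZMod p) = 0 := cast_zero_iff.2 ⟨c1, by rw [f1]; ring⟩
    push_cast at this
    rw [hA, hV] at this
    have h1 : (1 : ZMod p) = 0 := by linear_combination - this
    exact one_ne_zero h1
  exact ⟨U, V, K, hU, hV, g10, g11, g0, g1⟩

end S4B

open S4B in
theorem s4b (hb : BASStmt.{u}) (hk : KRUStmt) : S4BStmt.{u} := by
  intro p _ R _ b c d e b' c' d' e' hc h h' hn hn'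
  obtain ⟨u, v, k, hu, hv, e1, e2, e3, e4⟩ := eqs hb hc h h'
  have kk : ∀ (n : ℕ) (s s' t : ZMod p), t ≠ 0 → (s = 0 ∨ KRep p n s) → (s' = 0 ∨ KRep p n s') →
      s' * t ^ n = s → s = s' := by
    intro n s s' t ht hs hs' he
    rcases hs with hs | hs
    · subst hs
      exact ((mul_eq_zero.1 he).resolve_right (pow_ne_zero n ht)).symm
    · rcases hs' with hs' | hs'
      · subst hs'
        rw [zero_mul] at he
        exact absurd he.symm hs.1
      · exact (hk p n s' s t hs' hs ht he.symm).symm
  have hu2 : u ^ 2 ≠ 0 := pow_ne_zero 2 hu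
  have hu3 : u ^ 3 ≠ 0 := pow_ne_zero 3 hu
  have hv2 : v ^ 2 ≠ 0 := pow_ne_zero 2 hv
  cases hn with
  | a1 c =>
    cases hn' with
    | a1 c' =>
      have hu1 : u = 1 := by
        have : u ^ 2 * (u - 1) = 0 := by linear_combination e1 - e4
        have := (mul_eq_zero.1 this).resolve_left hu2
        linear_combination this
      have hv1 : v = 1 := by rw [hu1] at e1; linear_combination e1
      subst hu1
      subst hv1
      exact ⟨rfl, by linear_combination e2, rfl, rfl⟩
    | a2 c' hc' => exact absurd (by linear_combination e1) hv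
    | b1 d' => exact absurd (by linear_combination e4) hv
    | b2 d' hd' => exact absurd (by linear_combination e4) hv
    | b3 d' hd' => exact absurd (by linear_combination e4) hv
    | b4 d' hd' => exact absurd (by linear_combination e4) hv
  | a2 c hc0 =>
    cases hn' with
    | a1 c' => exact absurd (by linear_combination - e1) hu2
    | a2 c' hc' =>
      have hvu : v = u ^ 3 := by linear_combination e4
      refine ⟨rfl, ?_, rfl, rfl⟩
      have e5 : c * u ^ 3 = c' := by
        apply mul_left_cancel₀ hu3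
        rw [hvu] at e2
        linear_combination e2
      exact (kk 3 c' c u hu hc' hc0 e5).symm
    | b1 d' => exact absurd (by linear_combination e4) hv
    | b2 d' hd' => exact absurd (by linear_combination e4) hv
    | b3 d' hd' => exact absurd (by linear_combination e4) hv
    | b4 d' hd' => exact absurd (by linear_combination e4) hv
  | b1 d =>
    cases hn' with
    | a1 c' => exact absurd (by linear_combination - e4) hu3
    | a2 c' hc' => exact absurd (by linear_combination - e4) hu3
    | b1 d' =>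
      have hvu : v = u ^ 2 := by linear_combination e1
      have hu1 : u = 1 := by
        have : u ^ 3 * (u - 1) = 0 := by rw [hvu] at e2; linear_combination e2
        have := (mul_eq_zero.1 this).resolve_left hu3
        linear_combination this
      subst hu1
      exact ⟨rfl, rfl, by linear_combination e3, rfl⟩
    | b2 d' hd' => exact absurd (by linear_combination e2) hv2
    | b3 d' hd' => exact absurd (by linear_combination e1) hv
    | b4 d' hd' => exact absurd (by linear_combination e1) hv
  | b2 d hd =>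
    cases hn' with
    | a1 c' => exact absurd (by linear_combination - e4) hu3
    | a2 c' hc' => exact absurd (by linear_combination - e4) hu3
    | b1 d' => exact absurd (by linear_combination - e2) hu3
    | b2 d' hd' =>
      refine ⟨rfl, rfl, ?_, rfl⟩
      exact kk 2 d d' u hu hd hd' (mul_left_cancel₀ hu (by linear_combination - e3))
    | b3 d' hd' => exact absurd (by linear_combination e1) hv
    | b4 d' hd' => exact absurd (by linear_combination e1) hv
  | b3 d hd =>
    cases hn' with
    | a1 c' => exact absurd (by linear_combination - e4) hu3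
    | a2 c' hc' => exact absurd (by linear_combination - e4) hu3
    | b1 d' => exact absurd (by linear_combination - e1) hu2
    | b2 d' hd' => exact absurd (by linear_combination - e1) hu2
    | b3 d' hd' =>
      refine ⟨rfl, rfl, ?_, rfl⟩
      exact kk 2 d d' u hu hd hd' (mul_left_cancel₀ hu (by linear_combination - e3))
    | b4 d' hd' => exact absurd (by linear_combination - e2) hu3
  | b4 d hd =>
    cases hn' with
    | a1 c' => exact absurd (by linear_combination - e4) hu3
    | a2 c' hc' => exact absurd (by linear_combination - e4) hu3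
    | b1 d' => exact absurd (by linear_combination - e1) hu2
    | b2 d' hd' => exact absurd (by linear_combination - e1) hu2
    | b3 d' hd' => exact absurd (by linear_combination e2) hv2
    | b4 d' hd' =>
      refine ⟨rfl, rfl, ?_, rfl⟩
      have hvv : v ^ 2 = u ^ 3 := by linear_combination e2
      have ht : (v / u) ^ 2 = u := by
        field_simp
        linear_combination hvv
      refine kk 4 d d' (v / u) (div_ne_zero hv hu) hd hd' ?_
      have ht4 : (v / u) ^ 4 = u ^ 2 := by
        calc (v / u) ^ 4 = ((v / u) ^ 2) ^ 2 := by ring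
          _ = u ^ 2 := by rw [ht]
      rw [ht4]
      exact mul_left_cancel₀ hu (by linear_combination - e3)

end Pool.NR
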