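import Pool.Agent.H97.NR.Stmts

namespace Pool.NR

namespace W3H

theorem two_ne {p : ℕ} [Fact p.Prime] (hp : p ≠ 2) : (2 : ZMod p) ≠ 0 := by
  intro h
  have h2 : ((2 : ℕ) : ZMod p) = 0 := by exact_mod_cast h
  rw [ZMod.natCast_eq_zero_iff] at h2
  have := (Nat.prime_dvd_prime_iff_eq (Fact.out : p.Prime) Nat.prime_two).1 h2
  exact hp this

/-- scalar form of the equivalence with both tables written out -/
theorem eq_iff {p : ℕ} (a b c d A B C D a' b' c' d' A' B' C' D' : ZMod p)
    (h : Eq3a (T22 a b c d A B C D) (T22 a' b' c' d' A' B' C' D')) :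
    ∃ x y z w h00 h01 h10 h11 : ZMod p, x * w - y * z ≠ 0 ∧ h00 * h11 - h01 * h10 ≠ 0 ∧
      h00 * a' + h01 * A' = x * x * a + x * z * b + z * x * c + z * z * d ∧
      h00 * b' + h01 * B' = x * y * a + x * w * b + z * y * c + z * w * d ∧
      h00 * c' + h01 * C' = y * x * a + y * z * b + w * x * c + w * z * d ∧
      h00 * d' + h01 * D' = y * y * a + y * w * b + w * y * c + w * w * d ∧
      h10 * a' + h11 * A' = x * x * A + x * z * B + z * x * C + z * z * D ∧
      h10 * b' + h11 * B' = x * y * A + x * w * B + z * y * C + z * w * D ∧
      h10 * c' + h11 * C' = y * x * A + y * z * B + w * x * C + w * z * D ∧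
      h10 * d' + h11 * D' = y * y * A + y * w * B + w * y * C + w * w * D := by
  obtain ⟨g, k, hg, hk, he⟩ := h
  refine ⟨g 0 0, g 0 1, g 1 0, g 1 1, k 0 0, k 0 1, k 1 0, k 1 1, ?_, ?_, ?_⟩
  · rw [Matrix.det_fin_two] at hg; exact hg
  · rw [Matrix.det_fin_two] at hk; exact hk
  have e000 := he 0 0 0
  have e010 := he 0 1 0
  have e100 := he 1 0 0
  have e110 := he 1 1 0
  have e001 := he 0 0 1
  have e011 := he 0 1 1
  have e101 := he 1 0 1
  have e111 := he 1 1 1
  simp only [T22, Fin.sum_univ_two, Matrix.cons_val_zero, Matrix.cons_val_one] at e000 e010 e100 e110 e001 e011 e101 e111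
  refine ⟨?_, ?_, ?_, ?_, ?_, ?_, ?_, ?_⟩
  · linear_combination e000
  · linear_combination e010
  · linear_combination e100
  · linear_combination e110
  · linear_combination e001
  · linear_combination e011
  · linear_combination e101
  · linear_combination e111

/-- and conversely -/
theorem eq_mk {p : ℕ} (a b c d A B C D a' b' c' d' A' B' C' D' : ZMod p)
    (x y z w h00 h01 h10 h11 : ZMod p) (hg : x * w - y * z ≠ 0) (hh : h00 * h11 - h01 * h10 ≠ 0)
    (e1 : h00 * a' + h01 * A' = x * x * a + x * z * b + z * x * c + z * z * d)
    (e2 : h00 * b' + h01 * B' = x * y * a + x * w * b + z * y * c + z * w * d)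
    (e3 : h00 * c' + h01 * C' = y * x * a + y * z * b + w * x * c + w * z * d)
    (e4 : h00 * d' + h01 * D' = y * y * a + y * w * b + w * y * c + w * w * d)
    (e5 : h10 * a' + h11 * A' = x * x * A + x * z * B + z * x * C + z * z * D)
    (e6 : h10 * b' + h11 * B' = x * y * A + x * w * B + z * y * C + z * w * D)
    (e7 : h10 * c' + h11 * C' = y * x * A + y * z * B + w * x * C + w * z * D)
    (e8 : h10 * d' + h11 * D' = y * y * A + y * w * B + w * y * C + w * w * D) :
    Eq3a (T22 a b c d A B C D) (T22 a' b' c' d' A' B' C' D') := by
  refine ⟨!![x, y; z, w], !![h00, h01; h10, h11], ?_, ?_, ?_⟩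
  · rw [Matrix.det_fin_two_of]; exact hg
  · rw [Matrix.det_fin_two_of]; exact hh
  intro i j l
  fin_cases i <;> fin_cases j <;> fin_cases l <;>
    simp [T22, Fin.sum_univ_two]
  · linear_combination e1
  · linear_combination e5
  · linear_combination e2
  · linear_combination e6
  · linear_combination e3
  · linear_combination e7
  · linear_combination e4
  · linear_combination e8

theorem two_one : ∀ x : ZMod 2, x ≠ 0 → x = 1 := by decide

theorem two_b : ∀ m x z : ZMod 2, m ≠ 0 → x * x + x * z + z * z * m = 0 → x = 0 ∧ z = 0 := by
  decide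

theorem two_c : ∀ (m m' : ZMod 2), m ≠ 0 → m' ≠ 0 → m = m' := by decide

end W3H

theorem w3h : W3HStmt := by
  intro p hp B B' hB hB' h
  by_cases hp2 : p = 2
  · subst hp2
    cases hB with
    | h1 =>
      cases hB' with
      | h1 => rfl
      | h2 m hm =>
        exfalso
        have hm0 : m ≠ 0 := by rcases hm with hm | hm; exact absurd rfl hm; exact hm
        obtain ⟨x, y, z, w, h00, h01, h10, h11, hg, hh, e1, e2, e3, e4, e5, e6, e7, e8⟩ :=
          W3H.eq_iff _ _ _ _ _ _ _ _ _ _ _ _ _ _ _ _ h
        have k1 : h01 = h11 := by linear_combination e1 - e5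
        have k2 : h00 + h01 = h10 := by linear_combination e2 - e7
        have k3 : h01 ≠ 0 := by
          intro h0
          apply hh
          rw [← k1, h0]; ring
        have k4 : x * z ≠ 0 := by
          intro h0
          apply k3
          linear_combination e1 + h0
        have k5 : y * w ≠ 0 := by
          intro h0
          apply mul_ne_zero k3 hm0
          linear_combination e4 + h0
        have x1 := W3H.two_one x (left_ne_zero_of_mul k4)
        have z1 := W3H.two_one z (right_ne_zero_of_mul k4)
        have y1 := W3H.two_one y (left_ne_zero_of_mul k5)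
        have w1 := W3H.two_one w (right_ne_zero_of_mul k5)
        apply hg
        rw [x1, z1, y1, w1]; ring
    | h2 m hm =>
      cases hB' with
      | h1 =>
        exfalso
        have hm0 : m ≠ 0 := by rcases hm with hm | hm; exact absurd rfl hm; exact hm
        obtain ⟨x, y, z, w, h00, h01, h10, h11, hg, hh, e1, e2, e3, e4, e5, e6, e7, e8⟩ :=
          W3H.eq_iff _ _ _ _ _ _ _ _ _ _ _ _ _ _ _ _ h
        obtain ⟨x0, z0⟩ := W3H.two_b m x z hm0 (by linear_combination - e5)
        apply hg
        rw [x0, z0]; ring
      | h2 m' hm' =>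
        have hm0 : m ≠ 0 := by rcases hm with hm | hm; exact absurd rfl hm; exact hm
        have hm0' : m' ≠ 0 := by rcases hm' with hm | hm; exact absurd rfl hm; exact hm
        have : m = m' := W3H.two_c m m' hm0 hm0'
        rw [this]
  · have h2 := W3H.two_ne hp2
    cases hB with
    | h1 =>
      cases hB' with
      | h1 => rfl
      | h2 m hm =>
        exfalso
        obtain ⟨x, y, z, w, h00, h01, h10, h11, hg, hh, e1, e2, e3, e4, e5, e6, e7, e8⟩ :=
          W3H.eq_iff _ _ _ _ _ _ _ _ _ _ _ _ _ _ _ _ h
        have k1 : h01 = h11 := by linear_combination e1 - e5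
        have k2 : h00 + h01 = h10 := by linear_combination e2 - e7
        have k3 : h10 + h11 = h00 := by linear_combination e6 - e3
        have k4 : 2 * h01 = 0 := by linear_combination k2 + k3 + k1
        have k5 : h01 = 0 := by
          rcases mul_eq_zero.1 k4 with h | h
          · exact absurd h h2
          · exact h
        apply hh
        rw [← k1, k5]; ring
    | h2 m hm =>
      cases hB' with
      | h1 =>
        exfalso
        obtain ⟨x, y, z, w, h00, h01, h10, h11, hg, hh, e1, e2, e3, e4, e5, e6, e7, e8⟩ :=
          W3H.eq_iff _ _ _ _ _ _ _ _ _ _ _ _ _ _ _ _ h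
        have k1 : 2 * (x * z) = 0 := by linear_combination - e1
        have k2 : 2 * (y * w) = 0 := by linear_combination - e4
        have k3 : x * z = 0 := (mul_eq_zero.1 k1).resolve_left h2
        have k4 : y * w = 0 := (mul_eq_zero.1 k2).resolve_left h2
        have k5 : x ^ 2 + m * z ^ 2 = 0 := by linear_combination - e5 - k3
        have k6 : y ^ 2 + m * w ^ 2 = 0 := by linear_combination - e8 - k4
        rcases mul_eq_zero.1 k3 with hx | hz
        · have hz : z ≠ 0 := by rintro rfl; apply hg; rw [hx]; ring
          have hm : m = 0 := by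
            have : m * z ^ 2 = 0 := by rw [hx] at k5; linear_combination k5
            exact (mul_eq_zero.1 this).resolve_right (pow_ne_zero 2 hz)
          have hy : y = 0 := by
            have : y ^ 2 = 0 := by rw [hm] at k6; linear_combination k6
            exact pow_eq_zero_iff (two_ne_zero) |>.1 this
          apply hg; rw [hx, hy]; ring
        · have hx : x = 0 := by
            have : x ^ 2 = 0 := by rw [hz] at k5; linear_combination k5
            exact pow_eq_zero_iff (two_ne_zero) |>.1 this
          apply hg; rw [hx, hz]; ring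
      | h2 m' hm' =>
        obtain ⟨x, y, z, w, h00, h01, h10, h11, hg, hh, e1, e2, e3, e4, e5, e6, e7, e8⟩ :=
          W3H.eq_iff _ _ _ _ _ _ _ _ _ _ _ _ _ _ _ _ h
        have k0 : h01 = 0 := by linear_combination e2 - e3
        have k1 : 2 * (x * z) = 0 := by linear_combination - e1 + k0
        have k2 : 2 * (y * w) = 0 := by linear_combination - e4 + m' * k0
        have k3 : x * z = 0 := (mul_eq_zero.1 k1).resolve_left h2
        have k4 : y * w = 0 := (mul_eq_zero.1 k2).resolve_left h2
        have k5 : h11 = x * w - y * z := by linear_combination e6 - e7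
        have k6 : x ^ 2 + m * z ^ 2 = h11 := by linear_combination - e5 - k3
        have k7 : y ^ 2 + m * w ^ 2 = h11 * m' := by linear_combination - e8 - k4
        have hmm : m = m' := by
          rcases mul_eq_zero.1 k3 with hx | hz
          · have hz : z ≠ 0 := by rintro rfl; apply hg; rw [hx]; ring
            have hy : y ≠ 0 := by rintro rfl; apply hg; rw [hx]; ring
            have hw : w = 0 := (mul_eq_zero.1 k4).resolve_left hy
            subst hx hw
            have k8 : z * (m * z + y) = 0 := by linear_combination k6 + k5
            have k9 : m * z + y = 0 := (mul_eq_zero.1 k8).resolve_left hz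
            have k10 : y * y * (m - m') = 0 := by
              linear_combination m * k7 + m' * m * k5 - (m' * y) * k9
            have := (mul_eq_zero.1 k10).resolve_left (mul_ne_zero hy hy)
            linear_combination this
          · have hx : x ≠ 0 := by rintro rfl; apply hg; rw [hz]; ring
            have hw : w ≠ 0 := by rintro rfl; apply hg; rw [hz]; ring
            have hy : y = 0 := (mul_eq_zero.1 k4).resolve_right hw
            subst hz hy
            have k8 : x * (x - w) = 0 := by linear_combination k6 + k5
            have k9 : x - w = 0 := (mul_eq_zero.1 k8).resolve_left hx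
            have k10 : w * w * (m - m') = 0 := by
              linear_combination k7 + m' * k5 + m' * w * k9
            have := (mul_eq_zero.1 k10).resolve_left (mul_ne_zero hw hw)
            linear_combination this
        rw [hmm]

end Pool.NR
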