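import Pool.Agent.H92.NR.W3H

namespace Pool.NR

namespace W3N

theorem two_g : ∀ x y z w : ZMod 2, x * w - y * z ≠ 0 → x * x + z * z = 1 → y * y + w * w = 1 →
    x * y + z * w = 0 → (x = 1 ∧ y = 0 ∧ z = 0 ∧ w = 1) ∨ (x = 0 ∧ y = 1 ∧ z = 1 ∧ w = 0) := by
  decide

theorem two_cases : ∀ a : ZMod 2, a = 0 ∨ a = 1 := by decide

end W3N

theorem w3n (hk : KR2Stmt) (hn : NRUStmt) : W3NStmt := by
  intro p hp B B' hB hB' h
  cases hB with
  | n1 s a b hp2 hs hs1 hN =>
    cases hB' with
    | n1 s' a' b' _ hs' hs1' hN' =>
      have h2 := W3H.two_ne hp2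
      have hss : s' = s := by
        obtain ⟨s0, h0, h01, h0n, h0u, -⟩ := (hk p).1 hp2
        have e1 := (h0u s hs).resolve_left hs1
        have e2 := (h0u s' hs').resolve_left hs1'
        rw [e1, e2]
      subst hss
      have hs0 : s' ≠ 0 := hs.1
      obtain ⟨x, y, z, w, h00, h01, h10, h11, hg, hh, e1, e2, e3, e4, e5, e6, e7, e8⟩ :=
        W3H.eq_iff _ _ _ _ _ _ _ _ _ _ _ _ _ _ _ _ h
      have k0 : h01 = 0 := by
        apply (mul_eq_zero.1 (show 2 * h01 = 0 by linear_combination e2 - e3)).resolve_left h2
      subst k0
      have k1 : h11 = x * w - y * z := by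
        apply mul_left_cancel₀ h2
        linear_combination e6 - e7
      have hh0 : h00 ≠ 0 := by
        rintro rfl
        apply hh; ring
      -- the symmetric part of the second form is orthogonal to the first form
      have q1 : h00 = x * x - z * z * s' := by linear_combination e1
      have q2 : - (h00 * s') = y * y - w * w * s' := by linear_combination e4
      have q3 : x * y = z * w * s' := by linear_combination - e2
      have r1 : h10 + h11 * a' = x * x * a + 2 * x * z * b + z * z * (s' * a) := by
        linear_combination e5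
      have r2 : - (h10 * s') + h11 * (s' * a') = y * y * a + 2 * y * w * b + w * w * (s' * a) := by
        linear_combination e8
      have r3 : h11 * b' = x * y * a + (x * w + z * y) * b + z * w * (s' * a) := by
        apply mul_left_cancel₀ h2
        linear_combination e6 + e7
      have k2 : h10 = 0 := by
        have : (2 * h00 * s') * h10 = 0 := by
          have t : h00 * (- (h10 * s') + h11 * (s' * a')) + (- (h00 * s')) * (h10 + h11 * a') = 0 := by
            rw [r1, r2, q2, q1]
            linear_combination 2 * (x * y * a + (x * w + z * y) * b + z * w * (s' * a)) * q3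
          linear_combination - t
        exact (mul_eq_zero.1 this).resolve_left (mul_ne_zero (mul_ne_zero h2 hh0) hs0)
      subst k2
      have k3 : h11 ^ 2 * (b' ^ 2 - s' * a' ^ 2) = h11 ^ 2 * (b ^ 2 - s' * a ^ 2) := by
        have : (h11 * b') ^ 2 - (0 + h11 * a') * (- (0 * s') + h11 * (s' * a')) =
          (x * w - y * z) ^ 2 * (b ^ 2 - s' * a ^ 2) := by
          rw [r1, r2, r3]; ring
        rw [← k1] at this
        linear_combination this
      have hh1 : h11 ≠ 0 := by rw [k1]; exact hg
      have k4 := mul_left_cancel₀ (pow_ne_zero 2 hh1) k3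
      obtain ⟨ha, hb⟩ := hn p s' a b a' b' hN hN' k4
      rw [ha, hb]
    | n2 a' hp2' => exact absurd hp2' hp2
  | n2 a hp2 =>
    cases hB' with
    | n1 s' a' b' hp2' hs' hs1' hN' => exact absurd hp2 hp2'
    | n2 a' _ =>
      subst hp2
      obtain ⟨x, y, z, w, h00, h01, h10, h11, hg, hh, e1, e2, e3, e4, e5, e6, e7, e8⟩ :=
        W3H.eq_iff _ _ _ _ _ _ _ _ _ _ _ _ _ _ _ _ h
      have k0 : h01 = 0 := by linear_combination e2 - e3
      subst k0
      have hh0 : h00 ≠ 0 := by
        rintro rfl
        apply hh; ring
      have k1 := W3H.two_one h00 hh0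
      subst k1
      have hh1 : h11 ≠ 0 := by
        rintro rfl
        apply hh; ring
      have k2 := W3H.two_one h11 hh1
      subst k2
      rcases W3N.two_g x y z w hg (by linear_combination - e1) (by linear_combination - e4)
        (by linear_combination - e2) with ⟨rfl, rfl, rfl, rfl⟩ | ⟨rfl, rfl, rfl, rfl⟩
      · have h3 : h10 = 0 := by linear_combination e8
        have h4 : a = a' := by linear_combination - e5 + h3
        rw [h4]
      · exfalso
        apply hg
        linear_combination e7
      
end Pool.NR
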